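import Pool.Agent.CondR.Global

/-!
# Immersions with normal curvature less than the square root of 9/5

Full affirmative answer to Q1 of MP_f2e772_gt.  The definitions are in `Pool.Agent.CondR.Defs`.
-/

open scoped ContDiff Manifold ENNReal

/-- Let `X` be a compact smooth manifold modelled on a four-dimensional real vector space `E` with
a basis `b`, let `V` be a finite-dimensional Euclidean space and `f : X → V` a smooth immersion
into the closed unit ball with `sup |A(u,u)| < √(9/5)` over unit vectors `u`.  Then some metric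
`e^{2ψ} f^* g_V` with `ψ` smooth satisfies `2 Ric(u,u) < scal` for all unit vectors `u`. -/
theorem Pool.Agent.Results.MP_f2e772_gt.ConformalR.result
    {E V X : Type*} [NormedAddCommGroup E] [NormedSpace ℝ E] (b : Module.Basis (Fin 4) ℝ E)
    [NormedAddCommGroup V] [InnerProductSpace ℝ V] [FiniteDimensional ℝ V]
    [TopologicalSpace X] [ChartedSpace E X] [IsManifold 𝓘(ℝ, E) ∞ X] [CompactSpace X]
    (f : X → V) (hf : ContMDiff 𝓘(ℝ, E) 𝓘(ℝ, V) ∞ f)
    (himm : ∀ p, Function.Injective (mfderiv 𝓘(ℝ, E) 𝓘(ℝ, V) f p))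
    (hball : ∀ p, ‖f p‖ ≤ 1)
    (hcurv : CondR.normalCurv E f < ENNReal.ofReal √(9 / 5)) :
    ∃ ψ : X → ℝ, ContMDiff 𝓘(ℝ, E) 𝓘(ℝ, ℝ) ∞ ψ ∧
      ∀ p, CondR.SatR b (CondR.confMetric b (CondR.loc f p) (CondR.loc ψ p)) (CondR.pt E p) :=
  CondR.main b hf himm hball hcurv
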